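import Pool.Agent.Q253.Thin.Fixed
import Pool.Agent.Q253.Thin.AP
import Pool.Agent.Q253.Thin.VUp

/-!
# Progressions in the two classes of almost prime tuples

`n` is prime, `n + h j` is prime (class A) or a product `q q'` of two large primes with a fixed `q` (class B), and
the other members of the tuple have no small prime factors.
-/

set_option autoImplicit false

namespace Pool.Agent.Q173.TC

open Finset Filter
open Pool.Agent.Y840.CT Pool.Agent.Q253.Thin

/-- The integers `h i` are positive and distinct, and `0` and the `h i` miss a class modulo every prime. -/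
structure Admissible {r : ℕ} (h : Fin r → ℕ) : Prop where
  pos : ∀ i, 0 < h i
  inj : Function.Injective h
  loc : ∀ q : ℕ, q.Prime → ∃ a : ℕ, a < q ∧ a ≠ 0 ∧ ∀ i, h i % q ≠ a

/-- the shifts with the sign of the sieve -/
def neg {r : ℕ} (h : Fin r → ℕ) : Fin r → ℤ := fun i => -(h i : ℤ)

lemma rho_lt {r : ℕ} {h : Fin r → ℕ} (hh : Admissible h) {q : ℕ} (hq : q.Prime) :
    rho (univ.image (neg h)) q < q := by
  classical
  obtain ⟨a, ha, ha0, hai⟩ := hh.loc q hq
  have hq0 : (0 : ℤ) < q := by exact_mod_cast hq.pos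
  have hb : ((-(a : ℤ)) % q).toNat < q := by
    have h1 := Int.emod_lt_of_pos (-(a : ℤ)) hq0
    have h2 := Int.emod_nonneg (-(a : ℤ)) hq0.ne'
    omega
  unfold rho
  -- the classes are those of `[0, q)` without one
  have hsub : (insert 0 (univ.image (neg h))).image (fun h : ℤ => h % q) ⊆
      ((Finset.range q).image (fun n : ℕ => (n : ℤ))).erase ((-(a : ℤ)) % q) := by
    intro x hx
    rw [mem_image] at hx
    obtain ⟨y, hy, rfl⟩ := hx
    rw [mem_erase]
    refine ⟨?_, ?_⟩
    · intro he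
      have h1 : y ≡ -(a : ℤ) [ZMOD q] := he
      rw [mem_insert] at hy
      rcases hy with hy | hy
      · rw [hy] at h1
        have h2 : (q : ℤ) ∣ a := by
          have := (Int.modEq_iff_dvd).1 h1
          rw [sub_zero, dvd_neg] at this
          exact this
        have h3 : q ∣ a := by exact_mod_cast h2
        have := Nat.le_of_dvd (Nat.pos_of_ne_zero ha0) h3
        omega
      · rw [mem_image] at hy
        obtain ⟨i, _, rfl⟩ := hy
        have h2 : (h i : ℤ) ≡ a [ZMOD q] := by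
          have := h1.neg
          simpa [neg] using this
        have h3 : h i ≡ a [MOD q] := (Int.natCast_modEq_iff).1 h2
        have h4 : h i % q = a % q := h3
        rw [Nat.mod_eq_of_lt ha] at h4
        exact hai i h4
    · rw [mem_image]
      refine ⟨(y % q).toNat, ?_, ?_⟩
      · rw [mem_range]
        have h1 := Int.emod_lt_of_pos y hq0
        have h2 := Int.emod_nonneg y hq0.ne'
        omega
      · exact Int.toNat_of_nonneg (Int.emod_nonneg y hq0.ne')
  refine lt_of_le_of_lt (card_le_card hsub) ?_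
  rw [card_erase_of_mem, card_image_of_injective _ Nat.cast_injective, card_range]
  · have := hq.pos
    omega
  · rw [mem_image]
    refine ⟨((-(a : ℤ)) % q).toNat, mem_range.2 hb, ?_⟩
    exact Int.toNat_of_nonneg (Int.emod_nonneg _ hq0.ne')

lemma adm {r : ℕ} {h : Fin r → ℕ} (hh : Admissible h) (j : Fin r) : Adm r (neg h) j where
  ne := by
    have := hh.pos j
    simp only [neg]
    omega
  loc _ hq := rho_lt hh hq

/-- the number of classes for large primes -/
lemma rho_eq {r : ℕ} {h : Fin r → ℕ} (hh : Admissible h) {R : ℕ} (hR : ∀ i, h i ≤ R) {q : ℕ} (hq : R < q) :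
    rho (univ.image (neg h)) q = r + 1 := by
  classical
  unfold rho
  have hq0 : (0 : ℤ) < q := by exact_mod_cast (Nat.zero_le R).trans_lt hq
  have hinj : Set.InjOn (fun x : ℤ => x % q) ((insert 0 (univ.image (neg h)) : Finset ℤ) : Set ℤ) := by
    intro x hx y hy hxy
    have hrange : ∀ z ∈ (insert 0 (univ.image (neg h)) : Finset ℤ), -(R : ℤ) ≤ z ∧ z ≤ 0 := by
      intro z hz
      rw [mem_insert] at hz
      rcases hz with hz | hz
      · rw [hz]
        omega
      · rw [mem_image] at hz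
        obtain ⟨i, _, rfl⟩ := hz
        have := hR i
        simp only [neg]
        omega
    obtain ⟨x1, x2⟩ := hrange x (mem_coe.1 hx)
    obtain ⟨y1, y2⟩ := hrange y (mem_coe.1 hy)
    have h1 : x ≡ y [ZMOD q] := hxy
    have h2 := (Int.modEq_iff_dvd).1 h1
    have h3 := Int.eq_zero_of_abs_lt_dvd h2 (by
      rw [abs_lt]
      have : (R : ℤ) < q := by exact_mod_cast hq
      constructor <;> omega)
    omega
  rw [card_image_of_injOn hinj, card_insert_of_notMem, card_image_of_injective, card_univ, Fintype.card_fin]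
  · intro a b hab
    apply hh.inj
    simp only [neg] at hab
    omega
  · intro hmem
    rw [mem_image] at hmem
    obtain ⟨i, _, hi⟩ := hmem
    have := hh.pos i
    simp only [neg] at hi
    omega

/-- the upper bound for the sieve product -/
lemma VT_up {r : ℕ} {h : Fin r → ℕ} (hh : Admissible h) : ∃ C : ℝ, 0 < C ∧ ∀ X : ℕ, 2 ≤ X →
    VF (FT (neg h)) X ≤ C / Real.log X ^ (r + 1) := by
  classical
  obtain ⟨c, C, hc, hC, hV⟩ := Pool.Agent.Y843.HG.V1_bounds
  obtain ⟨R, hR⟩ : ∃ R : ℕ, ∀ i, h i ≤ R := ⟨∑ i, h i, fun i => single_le_sum (fun _ _ => Nat.zero_le _) (mem_univ i)⟩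
  have hVR := Pool.Agent.Y843.HG.V1_pos R
  refine ⟨(C / Pool.Agent.Y843.HG.V1 R) ^ (r + 1), by positivity, ?_⟩
  intro X hX
  have hV1 : ∀ Y : ℕ, Pool.Agent.Y843.HG.V1 Y = ∏ q ∈ (Icc 1 Y).filter Nat.Prime, (1 - 1 / (q : ℝ)) := by
    intro Y
    unfold Pool.Agent.Y843.HG.V1
    apply prod_congr _ (fun _ _ => rfl)
    ext q
    rw [Pool.Agent.Y843.HS.Pr_mem, mem_filter, mem_Icc]
    constructor
    · rintro ⟨⟨a, b⟩, c⟩
      exact ⟨⟨c.pos, b⟩, c⟩
    · rintro ⟨⟨a, b⟩, c⟩
      exact ⟨⟨c.pos, b⟩, c⟩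
  set P := (Icc 1 X).filter Nat.Prime with hP
  set Ps := P.filter (fun q => q ≤ R) with hPs
  set Pl := P.filter (fun q => ¬ q ≤ R) with hPl
  have hPp : ∀ q ∈ P, q.Prime := fun q hq => (mem_filter.1 hq).2
  have hf : ∀ q : ℕ, q.Prime → 0 ≤ (1 - (rho (FT (neg h) q) q : ℝ) / q) ∧
      (1 - (rho (FT (neg h) q) q : ℝ) / q) ≤ 1 := by
    intro q hq
    have h0 : (0 : ℝ) < q := by exact_mod_cast hq.pos
    constructor
    · rw [sub_nonneg, div_le_one h0]
      have h1 : rho (FT (neg h) q) q < q := rho_lt hh hq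
      exact_mod_cast h1.le
    · have : (0 : ℝ) ≤ (rho (FT (neg h) q) q : ℝ) / q := by positivity
      linarith
  have hg : ∀ q : ℕ, q.Prime → 0 < (1 - 1 / (q : ℝ)) ∧ (1 - 1 / (q : ℝ)) ≤ 1 := by
    intro q hq
    have := Pool.Agent.Y843.HG.fac1 hq
    exact ⟨by linarith [this.1], this.2⟩
  -- the large primes
  have h1 : VF (FT (neg h)) X ≤ ∏ q ∈ Pl, (1 - (rho (FT (neg h) q) q : ℝ) / q) := by
    unfold VF
    rw [← hP, ← prod_filter_mul_prod_filter_not P (fun q => q ≤ R), ← hPs, ← hPl]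
    apply mul_le_of_le_one_left
    · exact prod_nonneg fun q hq => (hf q (hPp q (mem_filter.1 hq).1)).1
    · exact prod_le_one (fun q hq => (hf q (hPp q (mem_filter.1 hq).1)).1)
        (fun q hq => (hf q (hPp q (mem_filter.1 hq).1)).2)
  have h2 : ∏ q ∈ Pl, (1 - (rho (FT (neg h) q) q : ℝ) / q) ≤ ∏ q ∈ Pl, (1 - 1 / (q : ℝ)) ^ (r + 1) := by
    apply Finset.prod_le_prod
    · exact fun q hq => (hf q (hPp q (mem_filter.1 hq).1)).1
    · intro q hq
      have hqR : R < q := by
        have := (mem_filter.1 hq).2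
        omega
      have hqp := hPp q (mem_filter.1 hq).1
      have e : rho (FT (neg h) q) q = r + 1 := rho_eq hh hR hqR
      rw [e]
      have h0 : (1 : ℝ) ≤ q := by exact_mod_cast hqp.pos
      have h3 : 1 / (q : ℝ) ≤ 1 := by
        rw [div_le_one (by linarith)]
        exact h0
      have h4 := one_add_mul_le_pow (show (-2 : ℝ) ≤ -(1 / (q : ℝ)) by linarith) (r + 1)
      have h5 : (1 : ℝ) + ((r + 1 : ℕ) : ℝ) * -(1 / (q : ℝ)) = 1 - ((r + 1 : ℕ) : ℝ) / q := by ring
      rw [h5] at h4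
      rw [sub_eq_add_neg 1 (1 / (q : ℝ))]
      exact h4
  have h3 : ∏ q ∈ Pl, (1 - 1 / (q : ℝ)) ≤ Pool.Agent.Y843.HG.V1 X / Pool.Agent.Y843.HG.V1 R := by
    rw [le_div_iff₀ hVR]
    have h4 : Pool.Agent.Y843.HG.V1 R ≤ ∏ q ∈ Ps, (1 - 1 / (q : ℝ)) := by
      rw [hV1 R]
      have hsub : Ps ⊆ (Icc 1 R).filter Nat.Prime := by
        intro q hq
        rw [hPs, mem_filter, hP, mem_filter, mem_Icc] at hq
        rw [mem_filter, mem_Icc]
        exact ⟨⟨hq.1.1.1, hq.2⟩, hq.1.2⟩
      rw [← prod_sdiff hsub]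
      apply mul_le_of_le_one_left
      · exact prod_nonneg fun q hq => (hg q (hPp q (mem_filter.1 hq).1)).1.le
      · exact prod_le_one (fun q hq => (hg q (mem_filter.1 (mem_sdiff.1 hq).1).2).1.le)
          (fun q hq => (hg q (mem_filter.1 (mem_sdiff.1 hq).1).2).2)
    rw [hV1 X, ← hP, ← prod_filter_mul_prod_filter_not P (fun q => q ≤ R), ← hPs, ← hPl, mul_comm]
    exact mul_le_mul_of_nonneg_right h4 (prod_nonneg fun q hq => (hg q (hPp q (mem_filter.1 hq).1)).1.le)
  have h4 : 0 ≤ ∏ q ∈ Pl, (1 - 1 / (q : ℝ)) := prod_nonneg fun q hq => (hg q (hPp q (mem_filter.1 hq).1)).1.le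
  have h5 := (hV X hX).2
  calc VF (FT (neg h)) X ≤ ∏ q ∈ Pl, (1 - 1 / (q : ℝ)) ^ (r + 1) := h1.trans h2
    _ = (∏ q ∈ Pl, (1 - 1 / (q : ℝ))) ^ (r + 1) := prod_pow _ _ _
    _ ≤ (Pool.Agent.Y843.HG.V1 X / Pool.Agent.Y843.HG.V1 R) ^ (r + 1) := pow_le_pow_left₀ h4 h3 _
    _ ≤ (C / Real.log X / Pool.Agent.Y843.HG.V1 R) ^ (r + 1) := by
        apply pow_le_pow_left₀
        · exact div_nonneg (Pool.Agent.Y843.HG.V1_pos X).le hVR.le
        · exact div_le_div_of_nonneg_right h5 hVR.le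
    _ = _ := by
        rw [div_right_comm, div_pow]

end Pool.Agent.Q173.TC
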