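import Pool.Agent.Q173.TC.Base

/-!
# Progressions in the two classes of almost prime tuples: the main theorem
-/

set_option autoImplicit false

namespace Pool.Agent.Q173.TC

open Finset Filter
open Pool.Agent.Y840.CT Pool.Agent.Q253.Thin

/-- Class A: `n` and `n + h j` are prime, the prime factors of the other `n + h i` are larger than `z`. -/
def ClassA {r : ℕ} (h : Fin r → ℕ) (j : Fin r) (z : ℝ) (n : ℕ) : Prop :=
  n.Prime ∧ (n + h j).Prime ∧ ∀ i, i ≠ j → ∀ p : ℕ, p.Prime → p ∣ n + h i → z < p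

/-- Class B for the prime `q`: `n` is prime, `n + h j = q q'` with a prime `q' ≥ q`, the prime factors of the other
`n + h i` are larger than `z`. -/
def ClassB {r : ℕ} (h : Fin r → ℕ) (j : Fin r) (z : ℝ) (q n : ℕ) : Prop :=
  n.Prime ∧ (∃ q' : ℕ, q'.Prime ∧ q ≤ q' ∧ n + h j = q * q') ∧
    ∀ i, i ≠ j → ∀ p : ℕ, p.Prime → p ∣ n + h i → z < p

/-- `S` contains `k` terms of an arithmetic progression with a difference `q d`, `1 ≤ d ≤ L`. -/
def HasProg (k q : ℕ) (L : ℝ) (S : Finset ℕ) : Prop :=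
  ∃ a d : ℕ, 1 ≤ d ∧ (d : ℝ) ≤ L ∧ ∀ j < k, a + j * (q * d) ∈ S

/-- The number of the integers `u < n ≤ v` with the property `P`. -/
noncomputable def count (P : ℕ → Prop) (u v : ℕ) : ℕ := {n : ℕ | u < n ∧ n ≤ v ∧ P n}.ncard

lemma card_le_count (P : ℕ → Prop) (u v : ℕ) (S : Finset ℕ)
    (hS : ∀ p ∈ S, u < p ∧ p ≤ v ∧ P p) : S.card ≤ count P u v := by
  unfold count
  rw [← Set.ncard_coe_finset]
  apply Set.ncard_le_ncard
  · intro x hx
    exact hS x (mem_coe.1 hx)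
  · apply (finite_toSet (Ioc u v)).subset
    rintro x ⟨h1, h2, _⟩
    rw [mem_coe, mem_Ioc]
    exact ⟨h1, h2⟩

/-- progressions in the dense subsets of a class modulo `q` -/
lemma prog {r : ℕ} {h : Fin r → ℕ} (hh : Admissible h) (j : Fin r) (t : ℕ) (ht : 1 ≤ t) (k : ℕ) (δ θ : ℝ)
    (hδ : 0 < δ) (hθ : 0 < θ) : ∃ D N₀ : ℕ, ∀ N : ℕ, N₀ ≤ N →
    ∀ u v : ℕ, v ≤ N → θ * N ≤ (v : ℝ) - u →
    ∀ q : ℕ, (q = 1 ∨ (q.Prime ∧ (N : ℝ) ^ (1 / 9 : ℝ) < q)) → q ^ 2 ≤ 2 * N → ∀ S : Finset ℕ,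
    S ⊆ GoodF t N u v (FT (neg h)) (neg h j) → (∃ a, ∀ n ∈ S, n % q = a) →
    δ * (((v : ℝ) - u) / (q * Real.log N ^ (r + 1))) ≤ S.card → HasProg k q (Real.log N ^ D) S := by
  classical
  obtain ⟨C, hC, hVT⟩ := VT_up hh
  obtain ⟨D, X₀, hX₀⟩ := apClass k r t ht (δ / C) θ (by positivity) hθ
  refine ⟨D, max X₀ (max 2 (h j)), ?_⟩
  intro N hN u v hv huv q hq hq2 S hS ha hcard
  have n1 : X₀ ≤ N := (le_max_left _ _).trans hN
  have n2 : 2 ≤ N := ((le_max_left _ _).trans (le_max_right _ _)).trans hN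
  have n3 : h j ≤ N := ((le_max_right _ _).trans (le_max_right _ _)).trans hN
  have hN0 : (0 : ℝ) < N := by exact_mod_cast (by omega : 0 < N)
  have huv0 : (0 : ℝ) < (v : ℝ) - u := lt_of_lt_of_le (by positivity) huv
  have hlN : 0 < Real.log N := Real.log_pos (by exact_mod_cast (by omega : 1 < N))
  have hq1 : 1 ≤ q := by
    rcases hq with h | ⟨h, _⟩
    · omega
    · exact h.pos
  have hq0 : (0 : ℝ) < q := by exact_mod_cast hq1
  have hsys := (adm hh j).sys (X := N) (by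
    simp only [neg]
    rw [abs_neg, Nat.abs_cast]
    exact_mod_cast n3)
  exact hX₀ N n1 (FT (neg h)) (neg h j) hsys u v hv huv q hq2 hq S hS ha (by
      refine le_trans ?_ hcard
      have h1 := hVT N n2
      have h2 : ((v : ℝ) - u) * VF (FT (neg h)) N / q ≤ ((v : ℝ) - u) * (C / Real.log N ^ (r + 1)) / q :=
        div_le_div_of_nonneg_right (mul_le_mul_of_nonneg_left h1 huv0.le) hq0.le
      refine (mul_le_mul_of_nonneg_left h2 (by positivity)).trans (le_of_eq ?_)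
      field_simp)

/-- the small elements are few -/
lemma ev_small (r : ℕ) (δ θ : ℝ) (hδ : 0 < δ) (hθ : 0 < θ) : ∀ᶠ N : ℕ in atTop,
    2 * (N : ℝ) ^ (1 / 9 : ℝ) ≤ δ * (θ * N / Real.log N ^ (r + 1)) := by
  have h1 := (isLittleO_log_rpow_rpow_atTop (s := 1 / 2) ((r + 1 : ℕ) : ℝ) (by norm_num)).def
    (show (0 : ℝ) < δ * θ / 2 by positivity)
  have h2 := tendsto_natCast_atTop_atTop (R := ℝ) |>.eventually h1
  filter_upwards [h2, eventually_ge_atTop 2] with N hN hN2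
  have hN0 : (0 : ℝ) < N := by exact_mod_cast (by omega : 0 < N)
  have hN1 : (1 : ℝ) ≤ N := by exact_mod_cast (by omega : 1 ≤ N)
  have hl : 0 < Real.log N := Real.log_pos (by exact_mod_cast (by omega : 1 < N))
  rw [Real.norm_of_nonneg (by positivity), Real.norm_of_nonneg (by positivity), Real.rpow_natCast] at hN
  have h3 : (N : ℝ) ^ (1 / 9 : ℝ) ≤ (N : ℝ) ^ (1 / 2 : ℝ) :=
    Real.rpow_le_rpow_of_exponent_le hN1 (by norm_num)
  rw [← mul_div_assoc, le_div_iff₀ (by positivity)]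
  have e : (N : ℝ) ^ (1 / 2 : ℝ) * (N : ℝ) ^ (1 / 2 : ℝ) = N := by
    rw [← Real.rpow_add hN0]
    norm_num
  calc 2 * (N : ℝ) ^ (1 / 9 : ℝ) * Real.log N ^ (r + 1)
      ≤ 2 * (N : ℝ) ^ (1 / 2 : ℝ) * (δ * θ / 2 * (N : ℝ) ^ (1 / 2 : ℝ)) :=
        mul_le_mul (by linarith) hN (by positivity) (by positivity)
    _ = δ * θ * ((N : ℝ) ^ (1 / 2 : ℝ) * (N : ℝ) ^ (1 / 2 : ℝ)) := by ring
    _ = δ * (θ * N) := by rw [e]; ring

/-- **The main theorem for `r + 1`-tuples.** -/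
theorem main (r : ℕ) : ∃ (t₀ : ℕ) (Q : Set ℕ) (C c : ℝ), 9 ≤ t₀ ∧ 0 < C ∧ 0 < c ∧ (∀ q ∈ Q, q.Prime) ∧
    (∀ x : ℕ, 16 ≤ x → ((Q ∩ Set.Iic x).ncard : ℝ) ≤ C * Real.log (Real.log x) ^ 2) ∧
    ∀ t : ℕ, t₀ ≤ t → ∀ h : Fin r → ℕ, Admissible h → ∀ j : Fin r,
    ∀ (k : ℕ) (δ θ : ℝ), 0 < δ → 0 < θ → ∃ D N₀ : ℕ, ∀ N : ℕ, N₀ ≤ N → ∀ u v : ℕ, v ≤ N →
      θ * N ≤ (v : ℝ) - u →
      (∀ S : Finset ℕ, (∀ n ∈ S, u < n ∧ n ≤ v ∧ ClassA h j ((N : ℝ) ^ (1 / (t : ℝ))) n) →
        δ * (((v : ℝ) - u) / Real.log N ^ (r + 1)) ≤ S.card → HasProg k 1 (Real.log N ^ D) S) ∧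
      (∀ q : ℕ, q.Prime → (N : ℝ) ^ (1 / 9 : ℝ) < q → q ^ 2 ≤ N + h j →
        ∀ S : Finset ℕ, (∀ n ∈ S, u < n ∧ n ≤ v ∧ ClassB h j ((N : ℝ) ^ (1 / (t : ℝ))) q n) →
        δ * (((v : ℝ) - u) / (q * Real.log N ^ (r + 1))) ≤ S.card → HasProg k q (Real.log N ^ D) S) ∧
      (c * (((v : ℝ) - u) / Real.log N ^ (r + 1)) ≤ (count (ClassA h j ((N : ℝ) ^ (1 / (t : ℝ)))) u v : ℝ) ∨
        ∃ q ∈ Q, (N : ℝ) ^ (1 / 9 : ℝ) < q ∧ q ^ 2 ≤ N + h j ∧
          c * (((v : ℝ) - u) / (q * Real.log N ^ (r + 1))) ≤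
            (count (ClassB h j ((N : ℝ) ^ (1 / (t : ℝ))) q) u v : ℝ)) := by
  classical
  obtain ⟨t0, ht0, c0, hc0, ρ, hρ, hd⟩ := dich r
  obtain ⟨c, hc, C, hC, Q, hQp, hQc, hmain⟩ := thinFixed hc0 hρ hd
  obtain ⟨cV, hcV, hV⟩ := VF_low r
  refine ⟨max t0 9, Q, C, c * cV, le_max_right _ _, hC, by positivity, hQp, ?_, ?_⟩
  · intro x hx
    obtain ⟨S, hS, hSc⟩ := hQc x hx
    have h1 : (Q ∩ Set.Iic x).ncard ≤ S.card := by
      rw [← Set.ncard_coe_finset]
      apply Set.ncard_le_ncard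
      · rintro q ⟨hq, hqx⟩
        exact hS q hq hqx
      · exact finite_toSet S
    have h2 : ((Q ∩ Set.Iic x).ncard : ℝ) ≤ S.card := by exact_mod_cast h1
    exact h2.trans hSc
  intro t ht h hh j k δ θ hδ hθ
  have t1 : t0 ≤ t := (le_max_left _ _).trans ht
  have t9 : 9 ≤ t := (le_max_right _ _).trans ht
  have ht0r : (0 : ℝ) < t := by exact_mod_cast (by omega : 0 < t)
  obtain ⟨D, N₁, hN₁⟩ := prog hh j t (by omega) k (δ / 2) θ (by positivity) hθ
  obtain ⟨N₂, hN₂⟩ := eventually_atTop.1 (ev_small r δ θ hδ hθ)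
  obtain ⟨X₀, hX₀⟩ := hmain (neg h) j (adm hh j) θ hθ
  refine ⟨D, max (max N₁ N₂) (max X₀ ((h j + 4) ^ 9)), ?_⟩
  intro N hN u v hv huv
  have m1 : N₁ ≤ N := le_trans (le_trans (le_max_left _ _) (le_max_left _ _)) hN
  have m2 : N₂ ≤ N := le_trans (le_trans (le_max_right _ _) (le_max_left _ _)) hN
  have n1 : X₀ ≤ N := le_trans (le_trans (le_max_left _ _) (le_max_right _ _)) hN
  have n2 : (h j + 4) ^ 9 ≤ N := le_trans (le_trans (le_max_right _ _) (le_max_right _ _)) hN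
  have n3 : h j + 4 ≤ N := le_trans (Nat.le_self_pow (by norm_num) _) n2
  have hN0 : (0 : ℝ) < N := by exact_mod_cast (by omega : 0 < N)
  have hN1 : (1 : ℝ) ≤ N := by exact_mod_cast (by omega : 1 ≤ N)
  have huv0 : (0 : ℝ) < (v : ℝ) - u := lt_of_lt_of_le (by positivity) huv
  have hlN : 0 < Real.log N := Real.log_pos (by exact_mod_cast (by omega : 1 < N))
  have hX9 : ((h j + 4 : ℕ) : ℝ) ≤ (N : ℝ) ^ (1 / 9 : ℝ) := by
    have h1 := le_rpow_of_pow_le (a := h j + 4) (X := N) (t := 9) (by norm_num) n2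
    norm_num at h1 ⊢
    exact h1
  have hXt : (N : ℝ) ^ (1 / (t : ℝ)) ≤ (N : ℝ) ^ (1 / 9 : ℝ) := by
    apply Real.rpow_le_rpow_of_exponent_le hN1
    apply one_div_le_one_div_of_le (by norm_num)
    exact_mod_cast t9
  have hXt0 : (N : ℝ) ^ (1 / (t : ℝ)) ≤ (N : ℝ) ^ (1 / (t0 : ℝ)) := by
    apply Real.rpow_le_rpow_of_exponent_le hN1
    apply one_div_le_one_div_of_le
    · exact_mod_cast (by omega : 0 < t0)
    · exact_mod_cast t1
  have hnat : ∀ n : ℕ, ∀ i, (neg h i - (n : ℤ)) = -((n + h i : ℕ) : ℤ) := by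
    intro n i
    simp only [neg]
    push_cast
    ring
  -- membership in the sieved set
  have hin : ∀ n : ℕ, u < n → n ≤ v → n.Prime → (N : ℝ) ^ (1 / 9 : ℝ) < (n : ℝ) →
      (n + h j).primeFactorsList.length ≤ 2 →
      (∀ q : ℕ, q.Prime → q ∣ n + h j → (N : ℝ) ^ (1 / 9 : ℝ) < q) →
      (∀ i, i ≠ j → ∀ p : ℕ, p.Prime → p ∣ n + h i → (N : ℝ) ^ (1 / (t : ℝ)) < p) →
      n ∈ GoodF t N u v (FT (neg h)) (neg h j) := by
    intro n hu hv' hp hpX hlen hrough hoth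
    unfold GoodF
    rw [mem_filter, mem_Ioc]
    refine ⟨⟨hu, hv'⟩, hp, lt_of_le_of_lt hXt hpX, ⟨?_, ?_, ?_⟩, ?_⟩
    · rw [hnat, neg_ne_zero]
      have := hp.pos
      exact_mod_cast (by omega : n + h j ≠ 0)
    · rw [hnat, Int.natAbs_neg, Int.natAbs_natCast]
      exact hlen
    · intro q hq hd
      rw [hnat, dvd_neg] at hd
      exact hrough q hq (by exact_mod_cast hd)
    · intro q hq hqX h' hh' hd
      unfold FT at hh'
      rw [mem_image] at hh'
      obtain ⟨i, _, rfl⟩ := hh'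
      rw [hnat, dvd_neg] at hd
      have hd' : q ∣ n + h i := by exact_mod_cast hd
      by_cases hij : i = j
      · rw [hij] at hd'
        have := hrough q hq hd'
        linarith
      · have := hoth i hij q hq hd'
        linarith
  refine ⟨?_, ?_, ?_⟩
  · intro S hS hcard
    set S1 : Finset ℕ := S.filter (fun n : ℕ => (N : ℝ) ^ (1 / 9 : ℝ) < (n : ℝ)) with hS1
    have hsmall : ((S.filter (fun n : ℕ => ¬ (N : ℝ) ^ (1 / 9 : ℝ) < (n : ℝ))).card : ℝ) ≤
        (N : ℝ) ^ (1 / 9 : ℝ) := by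
      have h1 : (S.filter (fun n : ℕ => ¬ (N : ℝ) ^ (1 / 9 : ℝ) < (n : ℝ))) ⊆
          Icc 1 ⌊(N : ℝ) ^ (1 / 9 : ℝ)⌋₊ := by
        intro n hn
        rw [mem_filter] at hn
        rw [mem_Icc]
        have h2 := (hS n hn.1).1
        exact ⟨by omega, Nat.le_floor (not_lt.1 hn.2)⟩
      have h2 := card_le_card h1
      rw [Nat.card_Icc, Nat.add_sub_cancel] at h2
      have h3 : ((S.filter (fun n : ℕ => ¬ (N : ℝ) ^ (1 / 9 : ℝ) < (n : ℝ))).card : ℝ) ≤
          (⌊(N : ℝ) ^ (1 / 9 : ℝ)⌋₊ : ℝ) := by exact_mod_cast h2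
      exact h3.trans (Nat.floor_le (by positivity))
    have hsplit : ((S1.card : ℝ)) + ((S.filter (fun n : ℕ => ¬ (N : ℝ) ^ (1 / 9 : ℝ) < (n : ℝ))).card : ℝ) =
        S.card := by
      rw [hS1]
      exact_mod_cast card_filter_add_card_filter_not (s := S) (fun n : ℕ => (N : ℝ) ^ (1 / 9 : ℝ) < (n : ℝ))
    have hbig := hN₂ N m2
    have hbig2 : δ * (θ * N / Real.log N ^ (r + 1)) ≤ δ * (((v : ℝ) - u) / Real.log N ^ (r + 1)) :=
      mul_le_mul_of_nonneg_left (div_le_div_of_nonneg_right huv (by positivity)) hδ.le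
    obtain ⟨a, d, h1, h2, h3⟩ := hN₁ N m1 u v hv huv 1 (Or.inl rfl) (by omega) S1 (by
      intro n hn
      rw [hS1, mem_filter] at hn
      obtain ⟨a1, a2, b1, b2, b3⟩ := hS n hn.1
      apply hin n a1 a2 b1 hn.2
      · rw [Nat.primeFactorsList_prime b2]
        simp
      · intro q hq hd
        rw [(Nat.prime_dvd_prime_iff_eq hq b2).1 hd]
        refine lt_of_lt_of_le hn.2 ?_
        exact_mod_cast (by omega : n ≤ n + h j)
      · exact b3) ⟨0, fun n _ => Nat.mod_one _⟩ (by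
      rw [Nat.cast_one, one_mul]
      linarith)
    exact ⟨a, d, h1, h2, fun j hj => (mem_filter.1 (h3 j hj)).1⟩
  · intro q hq hqX hq2 S hS hcard
    have hq4 : h j + 4 < q := by
      have : ((h j + 4 : ℕ) : ℝ) < q := lt_of_le_of_lt hX9 hqX
      exact_mod_cast this
    refine hN₁ N m1 u v hv huv q (Or.inr ⟨hq, hqX⟩) (by omega) S ?_ ?_ ?_
    · intro n hn
      obtain ⟨a1, a2, b1, ⟨q', hq', hqq, he⟩, b3⟩ := hS n hn
      apply hin n a1 a2 b1
      · have h1 : q ≤ n := by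
          have h2 : q * q ≤ q * q' := Nat.mul_le_mul_left _ hqq
          have h3 : (h j + 4) * q ≤ q * q := Nat.mul_le_mul_right _ hq4.le
          have h4 : h j * 1 ≤ h j * q := Nat.mul_le_mul_left _ (by omega)
          have h5 : (h j + 4) * q = h j * q + 4 * q := by ring
          omega
        have h2 : (q : ℝ) ≤ (n : ℝ) := by exact_mod_cast h1
        linarith
      · rw [he, (Nat.perm_primeFactorsList_mul hq.ne_zero hq'.ne_zero).length_eq, List.length_append,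
          Nat.primeFactorsList_prime hq, Nat.primeFactorsList_prime hq']
        simp
      · intro r hr hrd
        rw [he] at hrd
        rcases (Nat.Prime.dvd_mul hr).1 hrd with h | h
        · rw [(Nat.prime_dvd_prime_iff_eq hr hq).1 h]
          exact hqX
        · rw [(Nat.prime_dvd_prime_iff_eq hr hq').1 h]
          have : (q : ℝ) ≤ q' := by exact_mod_cast hqq
          linarith
      · exact b3
    · rcases S.eq_empty_or_nonempty with hS0 | ⟨n0, hn0⟩
      · rw [hS0]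
        exact ⟨0, by simp⟩
      · refine ⟨n0 % q, ?_⟩
        intro n hn
        obtain ⟨_, _, _, ⟨q', _, _, he⟩, _⟩ := hS n hn
        obtain ⟨_, _, _, ⟨q'', _, _, he'⟩, _⟩ := hS n0 hn0
        have h1 : n + h j ≡ n0 + h j [MOD q] := by
          rw [he, he']
          unfold Nat.ModEq
          simp
        exact Nat.ModEq.add_right_cancel' (h j) h1
    · refine le_trans ?_ hcard
      apply mul_le_mul_of_nonneg_right (by linarith)
      have : (0 : ℝ) < q := by exact_mod_cast hq.pos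
      positivity
  · -- the dichotomy
    have hsys := (adm hh j).sys (X := N) (by
      simp only [neg]
      rw [abs_neg, Nat.abs_cast]
      exact_mod_cast (by omega : h j ≤ N))
    have hVl : cV / Real.log N ^ (r + 1) ≤ VF (FT (neg h)) N := hV N (by omega) (FT (neg h)) hsys.card hsys.loc
    have hgood : ∀ p ∈ GoodF t0 N u v (FT (neg h)) (neg h j), p.Prime ∧ u < p ∧
        p ≤ v ∧ (neg h j - (p : ℤ)).natAbs = p + h j ∧
        (∀ q : ℕ, q.Prime → q ∣ p + h j → (N : ℝ) ^ (1 / 9 : ℝ) < q) ∧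
        ∀ i, i ≠ j → ∀ q : ℕ, q.Prime → q ∣ p + h i → (N : ℝ) ^ (1 / (t : ℝ)) < q := by
      intro p hp
      unfold GoodF at hp
      rw [mem_filter, mem_Ioc] at hp
      obtain ⟨⟨p1, p2⟩, pp, pt, ⟨pr1, pr2, pr3⟩, pF⟩ := hp
      have hnat' : (neg h j - (p : ℤ)).natAbs = p + h j := by
        rw [hnat, Int.natAbs_neg, Int.natAbs_natCast]
      refine ⟨pp, p1, p2, hnat', ?_, ?_⟩
      · intro q hq hd
        apply pr3 q hq
        rw [Int.natCast_dvd, hnat']
        exact hd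
      · intro i _ q hq hd
        refine lt_of_le_of_lt hXt0 ?_
        by_contra hcon
        apply pF q hq (not_lt.1 hcon) (neg h i)
        · unfold FT
          exact mem_image_of_mem _ (mem_univ i)
        · rw [hnat, dvd_neg]
          exact_mod_cast hd
    rcases hX₀ N n1 u v hv huv with hcase | ⟨q, hq, hcase⟩
    · left
      have h1 : (PF t0 N u v (FT (neg h)) (neg h j)).card ≤
          count (ClassA h j ((N : ℝ) ^ (1 / (t : ℝ)))) u v := by
        apply card_le_count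
        intro p hp
        unfold PF at hp
        rw [mem_filter] at hp
        obtain ⟨a1, a3, a4, a5, a6, a7⟩ := hgood p hp.1
        rw [a5] at hp
        exact ⟨a3, a4, a1, hp.2, a7⟩
      have h2 : c * cV * (((v : ℝ) - u) / Real.log N ^ (r + 1)) ≤ c * (((v : ℝ) - u) * VF (FT (neg h)) N) := by
        calc c * cV * (((v : ℝ) - u) / Real.log N ^ (r + 1))
            = c * (((v : ℝ) - u) * (cV / Real.log N ^ (r + 1))) := by ring
          _ ≤ _ := mul_le_mul_of_nonneg_left (mul_le_mul_of_nonneg_left hVl huv0.le) hc.le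
      calc _ ≤ _ := h2
        _ ≤ _ := hcase
        _ ≤ _ := by exact_mod_cast h1
    · right
      have hqp := hQp q hq
      have hq0 : (0 : ℝ) < q := by exact_mod_cast hqp.pos
      have hVp : 0 < VF (FT (neg h)) N := lt_of_lt_of_le (by positivity) hVl
      have hlow : 0 < c * (((v : ℝ) - u) * VF (FT (neg h)) N / q) := by positivity
      have hne : (RF t0 N u v (FT (neg h)) (neg h j) q).Nonempty := by
        rw [← card_pos]
        exact_mod_cast lt_of_lt_of_le hlow hcase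
      have hRF : ∀ p ∈ RF t0 N u v (FT (neg h)) (neg h j) q, u < p ∧ p ≤ v ∧
          ClassB h j ((N : ℝ) ^ (1 / (t : ℝ))) q p ∧ (N : ℝ) ^ (1 / 9 : ℝ) < q := by
        intro p hp
        unfold RF at hp
        rw [mem_filter] at hp
        obtain ⟨hp1, q', hq', hqq', hpq⟩ := hp
        obtain ⟨a1, a3, a4, a5, a6, a7⟩ := hgood p hp1
        rw [a5] at hpq
        have hqX := a6 q hqp (by rw [hpq]; exact Dvd.intro _ rfl)
        exact ⟨a3, a4, ⟨a1, ⟨q', hq', hqq', hpq⟩, a7⟩, hqX⟩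
      obtain ⟨p0, hp0⟩ := hne
      obtain ⟨b2, b3, ⟨_, ⟨q', b4, b5, b6⟩, _⟩, b7⟩ := hRF p0 hp0
      refine ⟨q, hq, b7, ?_, ?_⟩
      · have h1 : q * q ≤ q * q' := Nat.mul_le_mul_left _ b5
        rw [pow_two]
        omega
      · have h1 : (RF t0 N u v (FT (neg h)) (neg h j) q).card ≤
            count (ClassB h j ((N : ℝ) ^ (1 / (t : ℝ))) q) u v := by
          apply card_le_count
          intro p hp
          obtain ⟨a2, a3, a4, _⟩ := hRF p hp
          exact ⟨a2, a3, a4⟩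
        have h2 : c * cV * (((v : ℝ) - u) / (q * Real.log N ^ (r + 1))) ≤
            c * (((v : ℝ) - u) * VF (FT (neg h)) N / q) := by
          calc c * cV * (((v : ℝ) - u) / (q * Real.log N ^ (r + 1)))
              = c * (((v : ℝ) - u) * (cV / Real.log N ^ (r + 1)) / q) := by
                field_simp
            _ ≤ _ := mul_le_mul_of_nonneg_left
                (div_le_div_of_nonneg_right (mul_le_mul_of_nonneg_left hVl huv0.le) hq0.le) hc.le
        calc _ ≤ _ := h2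
          _ ≤ _ := hcase
          _ ≤ _ := by exact_mod_cast h1

end Pool.Agent.Q173.TC
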